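import Pool.Agent.helper82.Disc.D2
import Pool.Agent.helper52.Disc.E1
import Pool.Agent.helper52.Disc.E2

namespace Pool.Agent.helper82.Disc
open Finset

section digits
variable {b : ℕ} [Fact b.Prime]

/-- grid version -/
theorem grid_bound (n : ℕ) (hn : b ^ 5 ≤ n) :
    ∃ P : Params (ZMod b) n, ∀ u s w : Fin n → ZMod b,
      |∑ v : Fin n → ZMod b, lt01 n v u * lt01 n (fun j => v j.rev) s * lt01 n (Y n P v) w
        - (b : ℝ) ^ n * om n u * om n s * om n w| ≤ 14 * (n : ℝ) ^ 2 := by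
  classical
  have hbp : b.Prime := Fact.out
  have hb2 : (2 : ℝ) ≤ b := by exact_mod_cast hbp.two_le
  have hb0 : (0 : ℝ) < b := by linarith
  have hb4 : (0 : ℝ) < (b : ℝ) ^ 4 := by positivity
  have hn5 : (b : ℝ) ^ 5 ≤ n := by exact_mod_cast hn
  have hn32 : (32 : ℝ) ≤ n := by
    refine le_trans ?_ hn5
    calc (32 : ℝ) = 2 ^ 5 := by norm_num
      _ ≤ (b : ℝ) ^ 5 := pow_le_pow_left₀ (by norm_num) hb2 5
  have hb4n : (b : ℝ) ^ 4 ≤ n := by
    refine le_trans ?_ hn5
    exact pow_le_pow_right₀ (by linarith) (by norm_num)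
  have hbn : (b : ℝ) ≤ n := by
    refine le_trans ?_ hn5
    calc (b : ℝ) = (b : ℝ) ^ 1 := (pow_one _).symm
      _ ≤ (b : ℝ) ^ 5 := pow_le_pow_right₀ (by linarith) (by norm_num)
  set lam : ℝ := ((b : ℝ) ^ 4)⁻¹ with hlam
  have hlam0 : 0 < lam := inv_pos.mpr hb4
  have hlb : lam * (b : ℝ) ^ 4 = 1 := inv_mul_cancel₀ hb4.ne'
  have hlam1 : lam * (2 * (b : ℝ) ^ 2) ≤ 1 := by
    have h1 : 2 * (b : ℝ) ^ 2 ≤ (b : ℝ) ^ 4 := by nlinarith [sq_nonneg ((b : ℝ) ^ 2), pow_le_pow_left₀ (by norm_num : (0:ℝ) ≤ 2) hb2 2]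
    calc lam * (2 * (b : ℝ) ^ 2) ≤ lam * (b : ℝ) ^ 4 := mul_le_mul_of_nonneg_left h1 hlam0.le
      _ = 1 := hlb
  let ι : Type := ((Fin n → ZMod b) × (Fin n → ZMod b) × (Fin n → ZMod b)) × Bool
  let sg : ι → ℝ := fun i => if i.2 then 1 else -1
  let S : ι → Str (ZMod b) n := fun i => box n i.1.1 (fun j => i.1.2.1 j.rev)
  let w : ι → Fin n → ZMod b := fun i => i.1.2.2
  obtain ⟨P, hP⟩ := exists_params n (ι := ι) (fun _ => 1) (fun _ => zero_le_one) sg
    (fun i => by simp only [sg]; split_ifs <;> simp) S (fun i => box_good n _ _) w lam hlam0.le hlam1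
  refine ⟨P, fun u s w0 => ?_⟩
  -- the total exponent
  set K : ℝ := ∑ j ∈ Finset.range n, (lam * (2 * (j + 1 : ℝ) + 1)
          + 4 * lam ^ 2 * (b : ℝ) ^ 4 * (j + 1 : ℝ)) with hK
  have hKval : (b : ℝ) ^ 4 * K = 3 * (n : ℝ) ^ 2 + 4 * n := by
    have h1 : ∀ j : ℕ, (b : ℝ) ^ 4 * (lam * (2 * (j + 1 : ℝ) + 1)
          + 4 * lam ^ 2 * (b : ℝ) ^ 4 * (j + 1 : ℝ)) = 6 * j + 7 := by
      intro j
      have h2 : (b : ℝ) ^ 4 * (lam * (2 * (j + 1 : ℝ) + 1)
          + 4 * lam ^ 2 * (b : ℝ) ^ 4 * (j + 1 : ℝ)) = (lam * (b : ℝ) ^ 4) * (2 * (j + 1 : ℝ) + 1)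
          + 4 * (lam * (b : ℝ) ^ 4) ^ 2 * (j + 1 : ℝ) := by ring
      rw [h2, hlb]; ring
    rw [hK, Finset.mul_sum, Finset.sum_congr rfl (fun j _ => h1 j)]
    clear_value lam
    clear hP
    induction n with
    | zero => simp
    | succ n ih => 
      clear ih
      have : ∀ N : ℕ, ∑ j ∈ Finset.range N, (6 * (j : ℝ) + 7) = 3 * (N : ℝ) ^ 2 + 4 * N := by
        intro N
        induction N with
        | zero => simp
        | succ N ihN => rw [Finset.sum_range_succ, ihN]; push_cast; ring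
      exact this (n + 1)
  have hcard : (∑ _i : ι, (1 : ℝ)) = 2 * ((b : ℝ) ^ n) ^ 3 := by
    rw [Finset.sum_const, Finset.card_univ, nsmul_eq_mul, mul_one]
    simp only [ι, Fintype.card_prod, Fintype.card_fun, Fintype.card_fin, ZMod.card, Fintype.card_bool]
    push_cast; ring
  have hbound : ∀ i : ι, sg i * Dsum n P (S i) (w i) ≤ 7 * (n : ℝ) ^ 2 := by
    intro i
    have h1 : Real.exp (lam * (sg i * Dsum n P (S i) (w i))) ≤
        Real.exp K * (2 * ((b : ℝ) ^ n) ^ 3) := by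
      rw [← hcard]
      refine le_trans ?_ hP
      refine le_trans (le_of_eq (one_mul _).symm) ?_
      exact Finset.single_le_sum (f := fun i => (1:ℝ) * Real.exp (lam * (sg i * Dsum n P (S i) (w i))))
        (fun j _ => by positivity) (Finset.mem_univ i)
    have h2 : lam * (sg i * Dsum n P (S i) (w i)) ≤ K + (Real.log 2 + 3 * n * Real.log b) := by
      have h3 : Real.exp K * (2 * ((b : ℝ) ^ n) ^ 3) =
          Real.exp (K + (Real.log 2 + 3 * n * Real.log b)) := by
        rw [Real.exp_add, Real.exp_add, Real.exp_log (by norm_num)]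
        congr 2
        rw [← pow_mul]
        rw [show 3 * (n : ℝ) * Real.log b = ((n * 3 : ℕ) : ℝ) * Real.log b by push_cast; ring,
          Real.exp_nat_mul, Real.exp_log hb0]
      rw [h3] at h1
      exact Real.exp_le_exp.mp h1
    have h4 : sg i * Dsum n P (S i) (w i) ≤
        (b : ℝ) ^ 4 * (K + (Real.log 2 + 3 * n * Real.log b)) := by
      have := mul_le_mul_of_nonneg_left h2 hb4.le
      calc sg i * Dsum n P (S i) (w i) = (lam * (b : ℝ) ^ 4) * (sg i * Dsum n P (S i) (w i)) := by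
            rw [hlb, one_mul]
        _ = (b : ℝ) ^ 4 * (lam * (sg i * Dsum n P (S i) (w i))) := by ring
        _ ≤ _ := this
    have hlog2 : Real.log 2 ≤ 1 := by
      have := Real.log_le_sub_one_of_pos (show (0:ℝ) < 2 by norm_num); linarith
    have hlogb : Real.log b ≤ b := by
      have := Real.log_le_sub_one_of_pos hb0; linarith
    have h5 : (b : ℝ) ^ 4 * (K + (Real.log 2 + 3 * n * Real.log b)) ≤
        3 * (n : ℝ) ^ 2 + 4 * n + (n + 3 * (n : ℝ) ^ 2) := by
      have e1 : (b : ℝ) ^ 4 * Real.log 2 ≤ n := by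
        calc (b : ℝ) ^ 4 * Real.log 2 ≤ (b : ℝ) ^ 4 * 1 := mul_le_mul_of_nonneg_left hlog2 hb4.le
          _ ≤ n := by linarith
      have e2 : (b : ℝ) ^ 4 * (3 * n * Real.log b) ≤ 3 * (n : ℝ) ^ 2 := by
        calc (b : ℝ) ^ 4 * (3 * n * Real.log b) ≤ (b : ℝ) ^ 4 * (3 * n * b) := by
              gcongr
          _ = 3 * n * (b : ℝ) ^ 5 := by ring
          _ ≤ 3 * n * n := by gcongr
          _ = 3 * (n : ℝ) ^ 2 := by ring
      calc (b : ℝ) ^ 4 * (K + (Real.log 2 + 3 * n * Real.log b))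
          = (b : ℝ) ^ 4 * K + ((b : ℝ) ^ 4 * Real.log 2 + (b : ℝ) ^ 4 * (3 * n * Real.log b)) := by ring
        _ ≤ _ := by rw [hKval]; linarith
    nlinarith
  have hD : |Dsum n P (box n u (fun j => s j.rev)) w0| ≤ 7 * (n : ℝ) ^ 2 := by
    rw [abs_le]
    constructor
    · have := hbound ((u, s, w0), false)
      simp only [sg, S, w] at this
      simp at this
      linarith
    · have := hbound ((u, s, w0), true)
      simp only [sg, S, w] at this
      simpa using this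
  have hcount := box_count n u (fun j => s j.rev)
  have hrev : (fun j : Fin n => (fun j => s j.rev) j.rev) = s := by
    funext j; simp
  rw [hrev] at hcount
  have hsplit : ∑ v : Fin n → ZMod b, lt01 n v u * lt01 n (fun j => v j.rev) s * lt01 n (Y n P v) w0
      = Dsum n P (box n u (fun j => s j.rev)) w0 +
        om n w0 * ∑ v, (box n u (fun j => s j.rev)).beta v := by
    rw [Dsum, Finset.mul_sum, ← Finset.sum_add_distrib]
    refine Finset.sum_congr rfl (fun v _ => ?_)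
    rw [box_beta, hrev]; ring
  have hom := om_mem n w0
  have hfin : |om n w0 * (∑ v, (box n u (fun j => s j.rev)).beta v
      - (b : ℝ) ^ n * om n u * om n s)| ≤ 2 * n * b + 1 := by
    rw [abs_mul, abs_of_nonneg hom.1]
    calc om n w0 * |∑ v, (box n u (fun j => s j.rev)).beta v - (b : ℝ) ^ n * om n u * om n s|
        ≤ 1 * (2 * n * b + 1) := by
          refine mul_le_mul hom.2 hcount (abs_nonneg _) zero_le_one
      _ = _ := one_mul _
  rw [hsplit]
  have heq : Dsum n P (box n u (fun j => s j.rev)) w0 +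
        om n w0 * ∑ v, (box n u (fun j => s j.rev)).beta v
        - (b : ℝ) ^ n * om n u * om n s * om n w0 =
      Dsum n P (box n u (fun j => s j.rev)) w0 +
        om n w0 * (∑ v, (box n u (fun j => s j.rev)).beta v
          - (b : ℝ) ^ n * om n u * om n s) := by ring
  rw [heq]
  refine (abs_add_le _ _).trans ?_
  have h2nb : 2 * (n : ℝ) * b + 1 ≤ 7 * (n : ℝ) ^ 2 := by nlinarith
  linarith

end digits
end Pool.Agent.helper82.Disc
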