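import Mathlib

/-!
# Random perfect nets in dimension three: definitions

`F` is a finite field.  A string of length `k` is a function `Fin k → F`.
* `sel s R c a` is `c` if `a = s`, and otherwise the indicator of `a - s ∈ R`.
* `left u L c v` looks at the first index where `v` differs from `u`.
* `right s R c v` looks at the last index where `v` differs from `s`.
* `ydig e m v = e + ∑ m_j v_j` is the digit produced by the row `(e, m)`.
* `nxt e m v` is the next string (partial sums).
* `Params k` are `k` rows of lengths `k, k-1, …, 1` and `Y` the digits of the third coordinate.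
-/

namespace Pool.Agent.helper82.Disc

open Finset

variable {F : Type} [Field F] [Fintype F] [DecidableEq F]

/-- `c` if `a = s`, otherwise the indicator of `a - s ∈ R`. -/
def sel (s : F) (R : Finset F) (c : ℝ) (a : F) : ℝ :=
  if a = s then c else if a - s ∈ R then 1 else 0

/-- First difference of `v` with `u`. -/
def left : (k : ℕ) → (Fin k → F) → (Fin k → Finset F) → ℝ → (Fin k → F) → ℝ
  | 0, _, _, c, _ => c
  | k + 1, u, L, c, v => sel (u 0) (L 0) (left k (Fin.tail u) (Fin.tail L) c (Fin.tail v)) (v 0)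

/-- Last difference of `v` with `s`. -/
def right : (k : ℕ) → (Fin k → F) → (Fin k → Finset F) → ℝ → (Fin k → F) → ℝ
  | 0, _, _, c, _ => c
  | k + 1, s, R, c, v =>
      sel (s (Fin.last k)) (R (Fin.last k))
        (right k (Fin.init s) (Fin.init R) c (Fin.init v)) (v (Fin.last k))

/-- The digit of `v` produced by the row `(e, m)`. -/
def ydig {k : ℕ} (e : F) (m : Fin k → Fˣ) (v : Fin k → F) : F :=
  e + ∑ j, (m j : F) * v j

/-- The next string: partial sums `e + m_0 v_0 + ⋯ + m_j v_j`, `j < k`. -/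
def nxt {k : ℕ} (e : F) (m : Fin (k + 1) → Fˣ) (v : Fin (k + 1) → F) : Fin k → F :=
  fun j => e + ∑ i : Fin (k + 1), if i.val ≤ j.val then (m i : F) * v i else 0

/-- Rows of lengths `k, k-1, …, 1`. -/
def Params (F : Type) [Field F] : ℕ → Type
  | 0 => Unit
  | k + 1 => (F × (Fin (k + 1) → Fˣ)) × Params F k

/-- Digits of the third coordinate. -/
def Y : (k : ℕ) → Params F k → (Fin k → F) → (Fin k → F)
  | 0, _, v => v
  | k + 1, P, v => Fin.cons (ydig P.1.1 P.1.2 v) (Y k P.2 (nxt P.1.1 P.1.2 v))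

/-- A structure (generalised corner box) on strings of length `k`. -/
structure Str (F : Type) (k : ℕ) where
  u : Fin k → F
  s : Fin k → F
  L : Fin k → Finset F
  R : Fin k → Finset F
  cL : ℝ
  cR : ℝ

/-- The weight function of a structure. -/
def Str.beta {k : ℕ} (S : Str F k) (v : Fin k → F) : ℝ :=
  left k S.u S.L S.cL v * right k S.s S.R S.cR v

/-- Admissible structures. -/
structure Str.Good {k : ℕ} (S : Str F k) : Prop where
  hL : ∀ j, (0 : F) ∉ S.L j
  hR : ∀ j, (0 : F) ∉ S.R j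
  hcL : S.cL ∈ Set.Icc (0 : ℝ) 1
  hcR : S.cR ∈ Set.Icc (0 : ℝ) 1

/-- The row sum. -/
def rowSum {k : ℕ} (S : Str F k) (ψ : F → ℝ) (e : F) (m : Fin k → Fˣ) : ℝ :=
  ∑ v : Fin k → F, S.beta v * ψ (ydig e m v)

/-- Innermost right sum. -/
def hs : (k : ℕ) → (Fin k → Finset F) → (Fin k → Fˣ) → (F → ℝ) → F → ℝ
  | 0, _, _, _, _ => 0
  | _ + 1, R, m, ψ, τ => ∑ δ ∈ R 0, ψ (τ + (m 0 : F) * δ)

/-- The row sum as a function of `τ = y(s)`. -/
def Bt : (k : ℕ) → (u s : Fin k → F) → (L R : Fin k → Finset F) → (cL cR : ℝ) →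
    (ψ : F → ℝ) → (τ : F) → (m : Fin k → Fˣ) → ℝ
  | 0, _, _, _, _, cL, cR, ψ, τ, _ => cL * cR * ψ τ
  | k + 1, u, s, L, R, cL, cR, ψ, τ, m =>
      (∑ δ ∈ L 0, (sel (s 0) (R 0) cR (u 0 + δ) * ψ (τ + (m 0 : F) * (u 0 - s 0 + δ))
          + hs k (Fin.tail R) (Fin.tail m) ψ (τ + (m 0 : F) * (u 0 - s 0 + δ))))
      + Bt k (Fin.tail u) (Fin.tail s) (Fin.tail L) (Fin.tail R) cL
          (sel (s 0) (R 0) cR (u 0)) ψ (τ + (m 0 : F) * (u 0 - s 0)) (Fin.tail m)

/-- The transported structure, on the strings `v` with `ydig e m v = w`. -/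
def Str.transport {k : ℕ} (S : Str F (k + 1)) (e : F) (m : Fin (k + 1) → Fˣ) (w : F) :
    Str F k where
  u := nxt e m S.u
  s := fun j => w - ∑ i : Fin (k + 1), if j.val < i.val then (m i : F) * S.s i else 0
  L := fun j => (S.L j.castSucc).image (fun δ => (m j.castSucc : F) * δ)
  R := fun j => (S.R j.succ).image (fun δ => -(m j.succ : F) * δ)
  cL := sel (S.u (Fin.last k)) (S.L (Fin.last k)) S.cL
    (((m (Fin.last k))⁻¹ : Fˣ) * (w - (e + ∑ i : Fin k, (m i.castSucc : F) * S.u i.castSucc)))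
  cR := sel (S.s 0) (S.R 0) S.cR
    (((m 0)⁻¹ : Fˣ) * (w - ∑ i : Fin k, (m i.succ : F) * S.s i.succ - e))

/-! ### digits, `F = ZMod b` -/

section digits
variable {b : ℕ} [Fact b.Prime]

/-- indicator of `y <lex w` -/
noncomputable def lt01 : (k : ℕ) → (Fin k → ZMod b) → (Fin k → ZMod b) → ℝ
  | 0, _, _ => 0
  | k + 1, y, w => if (y 0).val < (w 0).val then 1 else
      if y 0 = w 0 then lt01 k (Fin.tail y) (Fin.tail w) else 0

/-- `0.w_0 w_1 …` in base `b` -/
noncomputable def om : (k : ℕ) → (Fin k → ZMod b) → ℝ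
  | 0, _ => 0
  | k + 1, w => (((w 0).val : ℝ) + om k (Fin.tail w)) / b

/-- the discrepancy sum -/
noncomputable def Dsum (k : ℕ) (P : Params (ZMod b) k) (S : Str (ZMod b) k)
    (w : Fin k → ZMod b) : ℝ :=
  ∑ v : Fin k → ZMod b, S.beta v * (lt01 k (Y k P v) w - om k w)

/-- the mean zero function of a digit -/
noncomputable def psi (w0 : ZMod b) (o : ℝ) (y : ZMod b) : ℝ :=
  (if y.val < w0.val then 1 else 0) + (if y = w0 then o else 0) - ((w0.val : ℝ) + o) / b

/-- differences to smaller digits -/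
def low (a : ZMod b) : Finset (ZMod b) := Finset.univ.filter (fun δ => (a + δ).val < a.val)

/-- structure of the box `{v < u} ∩ {rev v < rev s}` -/
def box (n : ℕ) (u s : Fin n → ZMod b) : Str (ZMod b) n where
  u := u
  s := s
  L := fun j => low (u j)
  R := fun j => low (s j)
  cL := 0
  cR := 0

/-- the integer with digits `w`, most significant first -/
def toNat : (k : ℕ) → (Fin k → ZMod b) → ℕ
  | 0, _ => 0
  | k + 1, w => (w 0).val * b ^ k + toNat k (Fin.tail w)

end digits

end Pool.Agent.helper82.Disc
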