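import Pool.Agent.helper82.Disc.Defs
import Pool.Agent.helper17.Disc.B2F
import Pool.Agent.helper66.Disc.D1

namespace Pool.Agent.helper82.Disc
open Finset

section digits
variable {b : ℕ} [Fact b.Prime]

theorem exists_params (k : ℕ) {ι : Type} [Fintype ι] (c : ι → ℝ) (hc : ∀ i, 0 ≤ c i)
    (sg : ι → ℝ) (hsg : ∀ i, |sg i| = 1) (S : ι → Str (ZMod b) k) (hS : ∀ i, (S i).Good)
    (w : ι → Fin k → ZMod b) (lam : ℝ) (hlam0 : 0 ≤ lam) (hlam : lam * (2 * (b : ℝ) ^ 2) ≤ 1) :
    ∃ P : Params (ZMod b) k,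
      ∑ i, c i * Real.exp (lam * (sg i * Dsum k P (S i) (w i))) ≤
        Real.exp (∑ j ∈ Finset.range k, (lam * (2 * (j + 1 : ℝ) + 1)
          + 4 * lam ^ 2 * (b : ℝ) ^ 4 * (j + 1 : ℝ))) * ∑ i, c i := by
  classical
  induction k generalizing c with
  | zero =>
    refine ⟨(), ?_⟩
    simp only [Finset.range_zero, Finset.sum_empty, Real.exp_zero, one_mul]
    refine Finset.sum_le_sum (fun i _ => ?_)
    have : Dsum 0 () (S i) (w i) = 0 := by
      simp [Dsum, lt01, om]
    rw [this]; simp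
  | succ k ih =>
    set G : ZMod b → (Fin (k + 1) → (ZMod b)ˣ) → ι → ℝ := fun e m i =>
      rowSum (S i) (psi (w i 0) (om k (Fin.tail (w i)))) e m with hG
    set E : ℝ := Real.exp (lam * (2 * (k + 1 : ℝ) + 1) + 4 * lam ^ 2 * (b : ℝ) ^ 4 * (k + 1 : ℝ)) with hE
    -- averaging
    have havg : ∀ i, ∑ e : ZMod b, ∑ m : Fin (k + 1) → (ZMod b)ˣ,
        Real.exp (lam * (sg i * G e m i)) ≤
        (Fintype.card (ZMod b) : ℝ) * (Fintype.card (ZMod b)ˣ : ℝ) ^ (k + 1) * E := by
      intro i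
      have h1 : |lam * sg i| = lam := by rw [abs_mul, hsg i, mul_one, abs_of_nonneg hlam0]
      have h2 : (lam * sg i) ^ 2 = lam ^ 2 := by
        rw [← sq_abs, h1]
      have hcard : (Fintype.card (ZMod b) : ℝ) = b := by rw [ZMod.card]
      have ho := om_mem k (Fin.tail (w i))
      have := rowSum_avg (S i) (hS i) (psi (w i 0) (om k (Fin.tail (w i))))
        (fun y => psi_abs _ _ ho.1 ho.2 y) (psi_sum _ _) (lam * sg i)
        (by rw [h1, hcard]; exact hlam)
      rw [h1, h2] at this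
      have hE' : Real.exp (lam * (2 * ((k + 1 : ℕ) : ℝ) + 1)
          + 4 * lam ^ 2 * (Fintype.card (ZMod b) : ℝ) ^ 4 * ((k + 1 : ℕ) : ℝ)) = E := by
        rw [hE, hcard]; push_cast; ring_nf
      rw [hE'] at this
      refine le_trans (le_of_eq ?_) this
      refine Finset.sum_congr rfl (fun e _ => Finset.sum_congr rfl (fun m _ => ?_))
      rw [hG]; ring_nf
    have hex : ∃ x : ZMod b × (Fin (k + 1) → (ZMod b)ˣ),
        ∑ i, c i * Real.exp (lam * (sg i * G x.1 x.2 i)) ≤ E * ∑ i, c i := by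
      have hsum : ∑ x : ZMod b × (Fin (k + 1) → (ZMod b)ˣ),
          ∑ i, c i * Real.exp (lam * (sg i * G x.1 x.2 i)) ≤
          ∑ x : ZMod b × (Fin (k + 1) → (ZMod b)ˣ), E * ∑ i, c i := by
        rw [Finset.sum_comm]
        have h3 : ∀ i, ∑ x : ZMod b × (Fin (k + 1) → (ZMod b)ˣ),
            c i * Real.exp (lam * (sg i * G x.1 x.2 i)) ≤
            c i * ((Fintype.card (ZMod b) : ℝ) * (Fintype.card (ZMod b)ˣ : ℝ) ^ (k + 1) * E) := by
          intro i
          rw [← Finset.mul_sum, Fintype.sum_prod_type]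
          exact mul_le_mul_of_nonneg_left (havg i) (hc i)
        refine (Finset.sum_le_sum (fun i _ => h3 i)).trans (le_of_eq ?_)
        rw [← Finset.sum_mul, Finset.sum_const, Finset.card_univ, Fintype.card_prod,
          Fintype.card_fun, Fintype.card_fin, nsmul_eq_mul]
        push_cast
        ring
      have hne : (Finset.univ : Finset (ZMod b × (Fin (k + 1) → (ZMod b)ˣ))).Nonempty :=
        ⟨(0, fun _ => 1), Finset.mem_univ _⟩
      obtain ⟨x, -, hx⟩ := Finset.exists_le_of_sum_le hne hsum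
      exact ⟨x, hx⟩
    obtain ⟨x, hx⟩ := hex
    obtain ⟨P, hP⟩ := ih
      (fun i => c i * Real.exp (lam * (sg i * G x.1 x.2 i)))
      (fun i => mul_nonneg (hc i) (Real.exp_nonneg _))
      (fun i => (S i).transport x.1 x.2 (w i 0))
      (fun i => transport_good (S i) (hS i) x.1 x.2 (w i 0)) (fun i => Fin.tail (w i))
    refine ⟨(x, P), ?_⟩
    have hD : ∀ i, Dsum (k + 1) ((x, P) : Params (ZMod b) (k + 1)) (S i) (w i) =
        G x.1 x.2 i + Dsum k P ((S i).transport x.1 x.2 (w i 0)) (Fin.tail (w i)) := fun i =>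
      Dsum_succ k (x, P) (S i) (hS i) (w i)
    calc ∑ i, c i * Real.exp (lam * (sg i * Dsum (k + 1) ((x, P) : Params (ZMod b) (k + 1)) (S i) (w i)))
        = ∑ i, (c i * Real.exp (lam * (sg i * G x.1 x.2 i))) *
            Real.exp (lam * (sg i * Dsum k P ((S i).transport x.1 x.2 (w i 0)) (Fin.tail (w i)))) := by
          refine Finset.sum_congr rfl (fun i _ => ?_)
          rw [hD i, mul_assoc, ← Real.exp_add]; ring_nf
      _ ≤ Real.exp (∑ j ∈ Finset.range k, (lam * (2 * (j + 1 : ℝ) + 1)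
          + 4 * lam ^ 2 * (b : ℝ) ^ 4 * (j + 1 : ℝ))) *
            ∑ i, c i * Real.exp (lam * (sg i * G x.1 x.2 i)) := hP
      _ ≤ Real.exp (∑ j ∈ Finset.range k, (lam * (2 * (j + 1 : ℝ) + 1)
          + 4 * lam ^ 2 * (b : ℝ) ^ 4 * (j + 1 : ℝ))) * (E * ∑ i, c i) :=
          mul_le_mul_of_nonneg_left hx (Real.exp_nonneg _)
      _ = _ := by
          rw [Finset.sum_range_succ, Real.exp_add, hE]; ring

end digits
end Pool.Agent.helper82.Disc
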